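import Mathlib
import Pool.Agent.W923.BR.Emb

set_option autoImplicit false

open Set MeasureTheory Cardinal
open Pool.Agent.W923.BH Pool.Agent.W923.BR

namespace Pool.Agent.Results.MP_59646b_lc.ShiftHedetniemi

/-- The shift graph: infinite sets `x` and `y` of natural numbers are adjacent if one of them is
obtained from the other one by removing its least element. -/
def shiftGraph : SimpleGraph (Set ℕ) where
  Adj x y := x.Infinite ∧ y.Infinite ∧ (y = x \ {sInf x} ∨ x = y \ {sInf y})
  symm := ⟨fun _ _ h => ⟨h.2.1, h.1, h.2.2.symm⟩⟩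
  loopless := ⟨fun x h => by
    have h1 : x = x \ {sInf x} := h.2.2.elim id id
    have h2 : sInf x ∈ x := Nat.sInf_mem h.1.nonempty
    rw [h1] at h2
    rw [← h1] at h2
    have h3 : sInf x ∈ x \ {sInf x} := h1 ▸ h2
    exact h3.2 rfl⟩

/-- The categorical product of two graphs. -/
def prodGraph {X Y : Type} (G : SimpleGraph X) (H : SimpleGraph Y) : SimpleGraph (X × Y) where
  Adj p q := G.Adj p.1 q.1 ∧ H.Adj p.2 q.2
  symm := ⟨fun _ _ h => ⟨h.1.symm, h.2.symm⟩⟩
  loopless := ⟨fun _ h => h.1.ne rfl⟩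

/-- The Borel chromatic number: the least cardinality of a standard Borel space `Z` for which there
is a Borel map to `Z` taking different values at adjacent vertices. -/
noncomputable def borelChromatic {X : Type} [MeasurableSpace X] (G : SimpleGraph X) :
    Cardinal.{0} :=
  sInf {κ | ∃ (Z : Type) (_ : MeasurableSpace Z) (_ : StandardBorelSpace Z) (c : X → Z),
    Measurable c ∧ (∀ x y, G.Adj x y → c x ≠ c y) ∧ #Z = κ}

theorem chrom_le_aleph0 (B : Set (Set ℕ)) : borelChromatic (shiftGraph.induce B) ≤ ℵ₀ := by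
  refine csInf_le' ⟨ℕ, inferInstance, inferInstance, fun x => sInf x.1, ?_, ?_, mk_nat⟩
  · have h1 : Measurable fun x : Set ℕ => sInf x := by
      refine measurable_to_countable' fun n => ?_
      have h2 : ∀ m, MeasurableSet {x : Set ℕ | m ∈ x} := fun m =>
        measurableSet_setOfPred.2 (measurable_set_mem m)
      have h3 : (fun x : Set ℕ => sInf x) ⁻¹' {n} =
          ({x | n ∈ x} ∩ ⋂ m, ⋂ (_ : m < n), {x | m ∈ x}ᶜ) ∪
            ({_x | n = 0} ∩ ⋂ m, {x | m ∈ x}ᶜ) := by
        ext x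
        simp only [mem_preimage, mem_singleton_iff, mem_union, mem_inter_iff, mem_iInter,
          mem_compl_iff, mem_ofPred_eq]
        constructor
        · rintro rfl
          by_cases hx : x.Nonempty
          · exact Or.inl ⟨Nat.sInf_mem hx, fun m hm => Nat.notMem_of_lt_sInf hm⟩
          · rw [not_nonempty_iff_eq_empty] at hx
            subst hx
            exact Or.inr ⟨Nat.sInf_empty, fun m hm => hm⟩
        · rintro (⟨h4, h5⟩ | ⟨h4, h5⟩)
          · exact le_antisymm (Nat.sInf_le h4) (not_lt.1 fun h6 => h5 _ h6 (Nat.sInf_mem ⟨n, h4⟩))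
          · have h6 : x = ∅ := by
              ext m
              exact ⟨fun h => (h5 m h).elim, fun h => h.elim⟩
            rw [h6, h4, Nat.sInf_empty]
      rw [h3]
      refine MeasurableSet.union (MeasurableSet.inter (h2 n) ?_) (MeasurableSet.inter ?_ ?_)
      · exact MeasurableSet.iInter fun m => MeasurableSet.iInter fun _ => (h2 m).compl
      · exact MeasurableSet.const _
      · exact MeasurableSet.iInter fun m => (h2 m).compl
    exact h1.comp measurable_subtype_coe
  · have key : ∀ x y : Set ℕ, y.Infinite → y = x \ {sInf x} → sInf x ≠ sInf y := by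
      intro x y hy h1 h2
      have h3 : sInf y ∈ y := Nat.sInf_mem hy.nonempty
      rw [← h2, h1] at h3
      exact h3.2 rfl
    rintro ⟨x, hx⟩ ⟨y, hy⟩ ⟨h1, h2, h3 | h3⟩
    · exact key x y h2 h3
    · exact (key y x h1 h3).symm

theorem aleph0_le_chrom {i : ℕ} {e : ℕ → ℕ} (he : ∀ (n : ℕ) (C : Bs × Bs → ℕ), Measurable C →
    (∀ p, C p < n) → ∃ u, ∃ y ∈ NN i e u, C (u, y) = C (u, Sh y)) :
    ℵ₀ ≤ borelChromatic (shiftGraph.induce (BB i e)) := by
  classical
  refine le_csInf ⟨_, Set ℕ, inferInstance, inferInstanceAs (StandardBorelSpace (ℕ → Prop)),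
    Subtype.val, measurable_subtype_coe, fun x y h => fun h2 => h.ne (Subtype.ext h2), rfl⟩ ?_
  rintro κ ⟨Z, _, _, c, hc, hne, rfl⟩
  by_contra hcon
  rw [not_le, lt_aleph0_iff_finite] at hcon
  obtain ⟨n, ⟨g⟩⟩ := Finite.exists_equiv_fin Z
  have hg : Measurable g := measurable_of_countable g
  have h1 : Measurable fun p : B0 i e => (⟨JS p.1, ⟨p, rfl⟩⟩ : BB i e) :=
    (meas_JS.comp measurable_subtype_coe).subtype_mk
  have h2 : Measurable fun p : B0 i e => ((g (c ⟨JS p.1, ⟨p, rfl⟩⟩) : Fin n) : ℕ) :=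
    (measurable_of_countable (fun k : Fin n => (k : ℕ))).comp (hg.comp (hc.comp h1))
  have hm : Measurable fun p : Bs × Bs =>
      if h : p ∈ B0 i e then ((g (c ⟨JS p, ⟨⟨p, h⟩, rfl⟩⟩) : Fin n) : ℕ) else 0 :=
    Measurable.dite (s := B0 i e) h2 measurable_const (meas_B0 i e)
  obtain ⟨u, y, hy, h⟩ := he (n + 1) _ hm (by
    intro p
    by_cases h : p ∈ B0 i e
    · rw [dif_pos h]
      have := (g (c ⟨JS p, ⟨⟨p, h⟩, rfl⟩⟩)).2
      omega
    · rw [dif_neg h]
      omega)
  have h1 : (u, y) ∈ B0 i e := hy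
  have h2 : (u, Sh y) ∈ B0 i e := NN_Sh hy
  rw [dif_pos h1, dif_pos h2] at h
  have h3 := g.injective (Fin.ext h)
  refine hne ⟨JS (u, y), ⟨⟨_, h1⟩, rfl⟩⟩ ⟨JS (u, Sh y), ⟨⟨_, h2⟩, rfl⟩⟩ ?_ h3
  exact ⟨JS_infinite hy.1, JS_infinite h2.1, Or.inl (JS_Sh hy.1)⟩

/-- There are Borel sets `B` and `C` of infinite sets of natural numbers such that the restrictions
of the shift graph to `B` and to `C` have Borel chromatic number `ℵ₀`, while their product has
Borel chromatic number at most `3`. -/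
theorem result : ∃ B C : Set (Set ℕ), MeasurableSet B ∧ MeasurableSet C ∧
    (∀ x ∈ B, x.Infinite) ∧ (∀ x ∈ C, x.Infinite) ∧
    borelChromatic (shiftGraph.induce B) = ℵ₀ ∧ borelChromatic (shiftGraph.induce C) = ℵ₀ ∧
    borelChromatic (prodGraph (shiftGraph.induce B) (shiftGraph.induce C)) ≤ 3 := by
  obtain ⟨e, he⟩ := exists_e
  refine ⟨BB 0 e, BB 1 e, meas_BB 0 e, meas_BB 1 e, ?_, ?_,
    le_antisymm (chrom_le_aleph0 _) (aleph0_le_chrom (he 0 (by norm_num))),
    le_antisymm (chrom_le_aleph0 _) (aleph0_le_chrom (he 1 (by norm_num))), ?_⟩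
  · rintro _ ⟨p, rfl⟩
    exact JS_infinite p.2.1
  · rintro _ ⟨p, rfl⟩
    exact JS_infinite p.2.1
  · have hadj : ∀ i (x y : BB i e), (shiftGraph.induce (BB i e)).Adj x y →
        (GG i e).Adj (inv i e x).1 (inv i e y).1 := by
      have key : ∀ i (x y : BB i e), y.1 = x.1 \ {sInf x.1} →
          (inv i e x).1.1 = (inv i e y).1.1 ∧
          (inv i e x).1.2 ∈ NN i e (inv i e x).1.1 ∧
          (inv i e y).1.2 = Sh (inv i e x).1.2 := by
        intro i x y h
        have h0 := (inv i e x).2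
        have h1 : (inv i e y).1 = ((inv i e x).1.1, Sh (inv i e x).1.2) := by
          refine JS_inj (inv i e y).2.1 (strictMono_Sh h0.1) ?_
          rw [inv_spec, h, JS_Sh h0.1, Prod.mk.eta, inv_spec]
        refine ⟨?_, h0, ?_⟩
        · rw [h1]
        · rw [h1]
      rintro i x y ⟨-, -, h | h⟩
      · exact GG_adj.2 (Or.inl (key i x y h))
      · exact GG_adj.2 (Or.inr (key i y x h))
    have hcard : #(Fin 3) = 3 := by simp
    rw [← hcard]
    have hmeas : Measurable fun p : BB 0 e × BB 1 e =>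
        colQ e ((inv 0 e p.1).1, (inv 1 e p.2).1) :=
      (meas_colQ e).comp
        ((measurable_subtype_coe.comp ((meas_inv 0 e).comp measurable_fst)).prodMk
          (measurable_subtype_coe.comp ((meas_inv 1 e).comp measurable_snd)))
    refine csInf_le' ⟨Fin 3, inferInstance, inferInstance,
      fun p => ⟨colQ e ((inv 0 e p.1).1, (inv 1 e p.2).1), colQ_lt e _⟩, ?_, ?_, rfl⟩
    · refine measurable_to_countable' fun k => ?_
      have : (fun p : BB 0 e × BB 1 e => (⟨colQ e ((inv 0 e p.1).1, (inv 1 e p.2).1),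
          colQ_lt e _⟩ : Fin 3)) ⁻¹' {k} =
          (fun p : BB 0 e × BB 1 e => colQ e ((inv 0 e p.1).1, (inv 1 e p.2).1)) ⁻¹' {k.1} := by
        ext p
        simp [Fin.ext_iff]
      rw [this]
      exact hmeas (measurableSet_singleton _)
    · intro p q h h2
      exact colQ_ne (hadj 0 _ _ h.1) (hadj 1 _ _ h.2) (congrArg Fin.val h2)

end Pool.Agent.Results.MP_59646b_lc.ShiftHedetniemi
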